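import Pool.Agent.helper69.AD.GS4

/-!
CLB: bound for the number of components of a multicurve.

For real weights on the inequivalent leaves the sum of the signed axes of the leaves that separate
`z` from `g z` is a cocycle of `Γ` with values in the `2 × 2` matrices; the cocycle determines the
weights, so the number of components is at most `4` times the number of generators.
-/

open scoped MatrixGroups LinearAlgebra.Projectivization
open Matrix UpperHalfPlane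

namespace AdSBend

noncomputable section

abbrev CLB_M : Type := Matrix (Fin 2) (Fin 2) ℝ

/-- conjugation -/
def CLB_cj (g : SL(2, ℝ)) : CLB_M →ₗ[ℝ] CLB_M where
  toFun X := g.1 * X * (g⁻¹).1
  map_add' X Y := by rw [mul_add, add_mul]
  map_smul' c X := by simp

theorem CLB_cj_apply (g : SL(2, ℝ)) (X : CLB_M) : CLB_cj g X = g.1 * X * (g⁻¹).1 := rfl

theorem CLB_cj_mul (g h : SL(2, ℝ)) (X : CLB_M) : CLB_cj (g * h) X = CLB_cj g (CLB_cj h X) := by
  simp only [CLB_cj_apply, _root_.mul_inv_rev]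
  rw [Matrix.SpecialLinearGroup.coe_mul, Matrix.SpecialLinearGroup.coe_mul]
  simp only [mul_assoc]

theorem CLB_cj_one (X : CLB_M) : CLB_cj 1 X = X := by
  simp [CLB_cj_apply]

theorem CLB_cj_inv (g : SL(2, ℝ)) (X : CLB_M) : CLB_cj g⁻¹ (CLB_cj g X) = X := by
  rw [← CLB_cj_mul, inv_mul_cancel, CLB_cj_one]

theorem CLB_cj_inv' (g : SL(2, ℝ)) (X : CLB_M) : CLB_cj g (CLB_cj g⁻¹ X) = X := by
  rw [← CLB_cj_mul, mul_inv_cancel, CLB_cj_one]

theorem CLB_cj_neg (g : SL(2, ℝ)) (X : CLB_M) : CLB_cj (-g) X = CLB_cj g X := by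
  simp only [CLB_cj_apply]
  rw [Matrix.SpecialLinearGroup.coe_inv, Matrix.SpecialLinearGroup.coe_inv,
    Matrix.SpecialLinearGroup.coe_neg, Matrix.adjugate_fin_two, Matrix.adjugate_fin_two]
  ext i j
  fin_cases i <;> fin_cases j <;> simp [Matrix.mul_apply, Fin.sum_univ_two] <;> ring

theorem CLB_cj_peq {g h : SL(2, ℝ)} (hgh : PEq g h) (X : CLB_M) : CLB_cj g X = CLB_cj h X := by
  rcases hgh with h1 | h1
  · rw [h1]
  · rw [h1, CLB_cj_neg]

theorem CLB_cj_trace (g : SL(2, ℝ)) (X : CLB_M) : (CLB_cj g X).trace = X.trace := by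
  rw [CLB_cj_apply, Matrix.trace_mul_comm, ← mul_assoc, ← Matrix.SpecialLinearGroup.coe_mul,
    inv_mul_cancel, Matrix.SpecialLinearGroup.coe_one, one_mul]

/-- the reflection matrix -/
def CLB_J : CLB_M := !![1, 0; 0, -1]

theorem CLB_cj_Dm (t : ℝ) (X : CLB_M) : CLB_cj (Dm t) X =
    !![X 0 0, Real.exp t * X 0 1; Real.exp (-t) * X 1 0, X 1 1] := by
  rw [CLB_cj_apply, Matrix.SpecialLinearGroup.coe_inv, Matrix.adjugate_fin_two]
  have e1 : Real.exp (t / 2) * Real.exp (-(t / 2)) = 1 := by rw [← Real.exp_add]; simp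
  have e2 : Real.exp (t / 2) * Real.exp (t / 2) = Real.exp t := by
    rw [← Real.exp_add]; congr 1; ring
  have e3 : Real.exp (-(t / 2)) * Real.exp (-(t / 2)) = Real.exp (-t) := by
    rw [← Real.exp_add]; congr 1; ring
  have hD : (Dm t).1 = !![Real.exp (t / 2), 0; 0, Real.exp (-(t / 2))] := rfl
  rw [hD]
  conv_lhs => rw [Matrix.eta_fin_two X]
  rw [Matrix.mul_fin_two]
  simp only [Matrix.of_apply, Matrix.cons_val', Matrix.cons_val_zero, Matrix.cons_val_one,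
    Matrix.cons_val_fin_one]
  rw [Matrix.mul_fin_two]
  ext i j
  fin_cases i <;> fin_cases j <;> simp
  · linear_combination (X 0 0) * e1
  · linear_combination (X 0 1) * e2
  · linear_combination (X 1 0) * e3
  · linear_combination (X 1 1) * e1

theorem CLB_Dm_J (t : ℝ) : CLB_cj (Dm t) CLB_J = CLB_J := by
  rw [CLB_cj_Dm]
  ext i j
  fin_cases i <;> fin_cases j <;> simp [CLB_J]

theorem CLB_Rm_J : CLB_cj Rm CLB_J = -CLB_J := by
  rw [CLB_cj_apply, Matrix.SpecialLinearGroup.coe_inv, Matrix.adjugate_fin_two]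
  ext i j
  fin_cases i <;> fin_cases j <;> simp [CLB_J, Rm, Matrix.mul_apply, Fin.sum_univ_two]

theorem CLB_diag {t : ℝ} (ht : 0 < t) {X : CLB_M} (h : CLB_cj (Dm t) X = X) (htr : X.trace = 0) :
    X = (X 0 0) • CLB_J := by
  rw [CLB_cj_Dm] at h
  have h01 : Real.exp t * X 0 1 = X 0 1 := congrFun (congrFun h 0) 1
  have h10 : Real.exp (-t) * X 1 0 = X 1 0 := congrFun (congrFun h 1) 0
  have e1 : Real.exp t ≠ 1 := by
    have := Real.add_one_lt_exp ht.ne'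
    linarith
  have e2 : Real.exp (-t) ≠ 1 := by
    have : Real.exp (-t) < 1 := by
      rw [Real.exp_lt_one_iff]
      linarith
    linarith
  have x01 : X 0 1 = 0 := by
    have h2 : (Real.exp t - 1) * X 0 1 = 0 := by linarith
    rcases mul_eq_zero.1 h2 with h | h
    · exact absurd (by linarith) e1
    · exact h
  have x10 : X 1 0 = 0 := by
    have h2 : (Real.exp (-t) - 1) * X 1 0 = 0 := by linarith
    rcases mul_eq_zero.1 h2 with h | h
    · exact absurd (by linarith) e2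
    · exact h
  have x11 : X 1 1 = -X 0 0 := by
    rw [Matrix.trace_fin_two] at htr
    linarith
  ext i j
  fin_cases i <;> fin_cases j <;> simp [CLB_J, x01, x10, x11]

open Classical in
/-- the axis matrix of an oriented geodesic -/
def CLB_Ax (p : Bd × Bd) : CLB_M :=
  if h : ∃ F, IsFrame F p then CLB_cj h.choose CLB_J else 0

theorem CLB_Ax_frame (h6 : BD6_stmt) {F : SL(2, ℝ)} {p : Bd × Bd} (hF : IsFrame F p) :
    CLB_Ax p = CLB_cj F CLB_J := by
  have hex : ∃ F, IsFrame F p := ⟨F, hF⟩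
  unfold CLB_Ax
  rw [dif_pos hex]
  obtain ⟨t, ht⟩ := h6.2.2.1 _ _ _ hex.choose_spec hF
  rw [CLB_cj_peq ht, CLB_cj_mul, CLB_Dm_J]

theorem CLB_Ax_ga (h6 : BD6_stmt) {p : Bd × Bd} (hp : p.1 ≠ p.2) (g : SL(2, ℝ)) :
    CLB_Ax (ga g p) = CLB_cj g (CLB_Ax p) := by
  obtain ⟨F, hF⟩ := h6.1 p hp
  rw [CLB_Ax_frame h6 hF, CLB_Ax_frame h6 (h6.2.2.2.2.2.1 F g p hF), CLB_cj_mul]

theorem CLB_Ax_sw (h6 : BD6_stmt) {p : Bd × Bd} (hp : p.1 ≠ p.2) :
    CLB_Ax (sw p) = -CLB_Ax p := by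
  obtain ⟨F, hF⟩ := h6.1 p hp
  rw [CLB_Ax_frame h6 hF, CLB_Ax_frame h6 (h6.2.2.2.2.1 F p hF), CLB_cj_mul, CLB_Rm_J, map_neg]

theorem CLB_Ax_trace (h6 : BD6_stmt) {p : Bd × Bd} (hp : p.1 ≠ p.2) : (CLB_Ax p).trace = 0 := by
  obtain ⟨F, hF⟩ := h6.1 p hp
  rw [CLB_Ax_frame h6 hF, CLB_cj_trace, Matrix.trace_fin_two]
  simp [CLB_J]

theorem CLB_Ax_ne (h6 : BD6_stmt) {p : Bd × Bd} (hp : p.1 ≠ p.2) : CLB_Ax p ≠ 0 := by
  obtain ⟨F, hF⟩ := h6.1 p hp
  rw [CLB_Ax_frame h6 hF]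
  intro h
  have h1 := congrArg (CLB_cj F⁻¹) h
  rw [CLB_cj_inv, map_zero] at h1
  have h2 := congrFun (congrFun h1 0) 0
  simp [CLB_J] at h2

theorem CLB_fix {M : SL(2, ℝ)} (h : CLB_cj M CLB_J = CLB_J) : M • bInf = bInf ∧ M • bZero = bZero := by
  have h1 : M.1 * CLB_J = CLB_J * M.1 := by
    have h2 := congrArg (fun X => X * M.1) h
    simp only [CLB_cj_apply] at h2
    rwa [mul_assoc, mul_assoc, ← Matrix.SpecialLinearGroup.coe_mul, inv_mul_cancel,
      Matrix.SpecialLinearGroup.coe_one, mul_one] at h2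
  have h01 := congrFun (congrFun h1 0) 1
  have h10 := congrFun (congrFun h1 1) 0
  simp [CLB_J, Matrix.mul_apply, Fin.sum_univ_two] at h01 h10
  have m01 : M.1 0 1 = 0 := by linarith
  have m10 : M.1 1 0 = 0 := by linarith
  have hdet := M.2
  rw [Matrix.det_fin_two, m01, zero_mul, sub_zero] at hdet
  have m00 : M.1 0 0 ≠ 0 := by
    intro h0
    rw [h0, zero_mul] at hdet
    exact zero_ne_one hdet
  have m11 : M.1 1 1 ≠ 0 := by
    intro h0
    rw [h0, mul_zero] at hdet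
    exact zero_ne_one hdet
  constructor
  · unfold bInf
    rw [Projectivization.smul_mk, Projectivization.mk_eq_mk_iff']
    refine ⟨M.1 0 0, ?_⟩
    show M.1 0 0 • ![1, 0] = M.1 *ᵥ ![1, 0]
    ext i
    fin_cases i <;> simp [Matrix.mulVec, dotProduct, Fin.sum_univ_two, m10]
  · unfold bZero
    rw [Projectivization.smul_mk, Projectivization.mk_eq_mk_iff']
    refine ⟨M.1 1 1, ?_⟩
    show M.1 1 1 • ![0, 1] = M.1 *ᵥ ![0, 1]
    ext i
    fin_cases i <;> simp [Matrix.mulVec, dotProduct, Fin.sum_univ_two, m01]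

theorem CLB_Ax_inj (h6 : BD6_stmt) {p q : Bd × Bd} (hp : p.1 ≠ p.2) (hq : q.1 ≠ q.2)
    (h : CLB_Ax p = CLB_Ax q) : p = q := by
  obtain ⟨F, hF⟩ := h6.1 p hp
  obtain ⟨F', hF'⟩ := h6.1 q hq
  rw [CLB_Ax_frame h6 hF, CLB_Ax_frame h6 hF'] at h
  have h1 := congrArg (CLB_cj F⁻¹) h
  rw [CLB_cj_inv, ← CLB_cj_mul] at h1
  obtain ⟨a1, a2⟩ := CLB_fix h1.symm
  have e : F' = F * (F⁻¹ * F') := by group
  apply Prod.ext
  · rw [← hF.1, ← hF'.1, e, mul_smul, a1]
  · rw [← hF.2, ← hF'.2, e, mul_smul, a2]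

theorem CLB_comm (h6 : BD6_stmt) (h8 : BD8_stmt) {g : SL(2, ℝ)} {p : Bd × Bd} (hg : Attracts g p)
    {a : CLB_M} (ha : CLB_cj g a = a) (htr : a.trace = 0) : ∃ x : ℝ, a = x • CLB_Ax p := by
  obtain ⟨F, t, hF, ht, hgF⟩ := (h8.1 g p).1 hg
  rw [CLB_cj_peq hgF, CLB_cj_mul, CLB_cj_mul] at ha
  have h1 : CLB_cj (Dm t) (CLB_cj F⁻¹ a) = CLB_cj F⁻¹ a := by
    have h2 := congrArg (CLB_cj F⁻¹) ha
    rwa [CLB_cj_inv] at h2
  have h2 := CLB_diag ht h1 (by rw [CLB_cj_trace, htr])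
  refine ⟨(CLB_cj F⁻¹ a) 0 0, ?_⟩
  rw [CLB_Ax_frame h6 hF, ← map_smul, ← h2, CLB_cj_inv']

/-- a traceless matrix that commutes with two hyperbolic elements with facing axes is zero -/
theorem CLB_zero (h4 : BD4_stmt) (h6 : BD6_stmt) (h8 : BD8_stmt) {g h : SL(2, ℝ)} {p q : Bd × Bd}
    (hg : Attracts g p) (hh : Attracts h q) (hpq : Facing p q) {a : CLB_M} (ha : CLB_cj g a = a)
    (hb : CLB_cj h a = a) (htr : a.trace = 0) : a = 0 := by
  obtain ⟨x, hx⟩ := CLB_comm h6 h8 hg ha htr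
  by_cases hx0 : x = 0
  · rw [hx, hx0, zero_smul]
  exfalso
  have h1 : CLB_cj h (CLB_Ax p) = CLB_Ax p := by
    rw [hx, map_smul] at hb
    exact smul_right_injective _ hx0 hb
  rw [← CLB_Ax_ga h6 hg.1] at h1
  have hne : (ga h p).1 ≠ (ga h p).2 := by
    intro h2
    exact hg.1 (MulAction.injective h h2)
  have h2 := CLB_Ax_inj h6 hne hg.1 h1
  have h3 : h • p.1 = p.1 := congrArg Prod.fst h2
  rcases h8.2.2.2.2.2.2.2 h q p.1 hh h3 with h5 | h5
  · exact (h4.1 _ _ _ hpq.1).2.2 h5.symm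
  · exact (h4.1 _ _ _ hpq.2).2.2 h5.symm

/-! ### the cocycle -/

/-- the sign of the side -/
def CLB_sg (p : Bd × Bd) (z : ℍ) : ℝ := Real.sign (side z p.1 p.2)

theorem CLB_sg_ga (h : PT1_stmt) (g : SL(2, ℝ)) (p : Bd × Bd) (z : ℍ) :
    CLB_sg (ga g p) (g • z) = CLB_sg p z := by
  obtain ⟨h1, h2, h3, -⟩ := h g z p.1 p.2
  unfold CLB_sg
  rcases lt_trichotomy (side z p.1 p.2) 0 with h5 | h5 | h5
  · rw [Real.sign_of_neg h5, Real.sign_of_neg (h2.2 h5)]
  · rw [h5, h3.2 h5]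
  · rw [Real.sign_of_pos h5, Real.sign_of_pos (h1.2 h5)]

theorem CLB_sg_sw (h : PT1_stmt) (p : Bd × Bd) (z : ℍ) : CLB_sg (sw p) z = -CLB_sg p z := by
  have h1 := (h 1 z p.1 p.2).2.2.2
  unfold CLB_sg
  rw [h1, Real.sign_neg]

variable {Γ : Subgroup SL(2, ℝ)}

open Classical in
/-- the weight of a leaf -/
def CLB_w (Γ : Subgroup SL(2, ℝ)) {t : Finset (Bd × Bd)} (c : t → ℝ) (p : Bd × Bd) : ℝ :=
  ∑ q : t, if ∃ γ ∈ Γ, p = ga γ q.1 ∨ p = ga γ (sw q.1) then c q else 0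

theorem CLB_w_add {t : Finset (Bd × Bd)} (c c' : t → ℝ) (p : Bd × Bd) :
    CLB_w Γ (c + c') p = CLB_w Γ c p + CLB_w Γ c' p := by
  unfold CLB_w
  rw [← Finset.sum_add_distrib]
  apply Finset.sum_congr rfl
  intro q _
  split_ifs <;> simp

theorem CLB_w_smul {t : Finset (Bd × Bd)} (k : ℝ) (c : t → ℝ) (p : Bd × Bd) :
    CLB_w Γ (k • c) p = k * CLB_w Γ c p := by
  unfold CLB_w
  rw [Finset.mul_sum]
  apply Finset.sum_congr rfl
  intro q _
  split_ifs <;> simp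

theorem CLB_w_ga {t : Finset (Bd × Bd)} (c : t → ℝ) (p : Bd × Bd) {g : SL(2, ℝ)} (hg : g ∈ Γ) :
    CLB_w Γ c (ga g p) = CLB_w Γ c p := by
  unfold CLB_w
  apply Finset.sum_congr rfl
  intro q _
  have : (∃ γ ∈ Γ, ga g p = ga γ q.1 ∨ ga g p = ga γ (sw q.1)) ↔
      ∃ γ ∈ Γ, p = ga γ q.1 ∨ p = ga γ (sw q.1) := by
    constructor
    · rintro ⟨γ, hγ, h⟩
      refine ⟨g⁻¹ * γ, Γ.mul_mem (Γ.inv_mem hg) hγ, ?_⟩
      have e : ∀ r : Bd × Bd, ga (g⁻¹ * γ) r = ga g⁻¹ (ga γ r) := by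
        intro r
        simp [ga, mul_smul]
      have e' : ga g⁻¹ (ga g p) = p := by simp [ga]
      rcases h with h | h
      · left; rw [e, ← h, e']
      · right; rw [e, ← h, e']
    · rintro ⟨γ, hγ, h⟩
      refine ⟨g * γ, Γ.mul_mem hg hγ, ?_⟩
      have e : ∀ r : Bd × Bd, ga (g * γ) r = ga g (ga γ r) := by
        intro r
        simp [ga, mul_smul]
      rcases h with h | h
      · left; rw [e, ← h]
      · right; rw [e, ← h]
  split_ifs with h1 h2 h2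
  · rfl
  · exact absurd (this.1 h1) h2
  · exact absurd (this.2 h2) h1
  · rfl

theorem CLB_w_sw {t : Finset (Bd × Bd)} (c : t → ℝ) (p : Bd × Bd) :
    CLB_w Γ c (sw p) = CLB_w Γ c p := by
  unfold CLB_w
  apply Finset.sum_congr rfl
  intro q _
  have : (∃ γ ∈ Γ, sw p = ga γ q.1 ∨ sw p = ga γ (sw q.1)) ↔
      ∃ γ ∈ Γ, p = ga γ q.1 ∨ p = ga γ (sw q.1) := by
    have key : ∀ a b : Bd × Bd, sw a = b ↔ a = sw b := by
      intro a b
      constructor
      · rintro rfl; rfl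
      · rintro rfl; rfl
    refine exists_congr (fun γ => and_congr Iff.rfl ?_)
    rw [key, key]
    exact or_comm
  split_ifs with h1 h2 h2
  · rfl
  · exact absurd (this.1 h1) h2
  · exact absurd (this.2 h2) h1
  · rfl

theorem CLB_w_self {t : Finset (Bd × Bd)} (c : t → ℝ)
    (ht : ∀ p ∈ t, ∀ q ∈ t, p ≠ q → ∀ γ ∈ Γ, ga γ p ≠ q ∧ ga γ p ≠ sw q) (q : t) :
    CLB_w Γ c q.1 = c q := by
  unfold CLB_w
  rw [Finset.sum_eq_single q]
  · rw [if_pos]
    exact ⟨1, Γ.one_mem, Or.inl (by simp [ga])⟩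
  · intro b _ hb
    rw [if_neg]
    rintro ⟨γ, hγ, h | h⟩
    · exact (ht b.1 b.2 q.1 q.2 (fun h' => hb (Subtype.ext h')) γ hγ).1 h.symm
    · refine (ht b.1 b.2 q.1 q.2 (fun h' => hb (Subtype.ext h')) γ hγ).2 ?_
      rw [h]
  · intro h
    exact absurd (Finset.mem_univ q) h

open Classical in
/-- the summands -/
def CLB_f (S : LeafSystem Γ) {t : Finset (Bd × Bd)} (c : t → ℝ) (z z' : ℍ) (p : Bd × Bd) : CLB_M :=
  if p ∈ S.L then (CLB_w Γ c p * (CLB_sg p z' - CLB_sg p z)) • CLB_Ax p else 0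

/-- the cocycle -/
def CLB_D (S : LeafSystem Γ) {t : Finset (Bd × Bd)} (c : t → ℝ) (z z' : ℍ) : CLB_M :=
  ∑ᶠ p, CLB_f S c z z' p

theorem CLB_fin (h5 : GM5_stmt) (hΓ : IsClosedSurfaceGroup Γ) (S : LeafSystem Γ)
    {t : Finset (Bd × Bd)} (c : t → ℝ) (z z' : ℍ) :
    (Function.support (CLB_f S c z z')).Finite := by
  apply ((h5 Γ hΓ S).2.1 z z').subset
  intro p hp
  rw [Function.mem_support] at hp
  unfold CLB_f at hp
  split_ifs at hp with hL
  · refine ⟨hL, ?_⟩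
    by_contra hlt
    rw [not_le] at hlt
    apply hp
    have : CLB_sg p z' = CLB_sg p z := by
      unfold CLB_sg
      rcases pos_and_pos_or_neg_and_neg_of_mul_pos hlt with ⟨h1, h2⟩ | ⟨h1, h2⟩
      · rw [Real.sign_of_pos h1, Real.sign_of_pos h2]
      · rw [Real.sign_of_neg h1, Real.sign_of_neg h2]
    rw [this, sub_self, mul_zero, zero_smul]
  · exact absurd rfl hp

theorem CLB_D_trans (h5 : GM5_stmt) (hΓ : IsClosedSurfaceGroup Γ) (S : LeafSystem Γ)
    {t : Finset (Bd × Bd)} (c : t → ℝ) (z z' z'' : ℍ) :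
    CLB_D S c z z'' = CLB_D S c z z' + CLB_D S c z' z'' := by
  unfold CLB_D
  rw [← finsum_add_distrib (CLB_fin h5 hΓ S c z z') (CLB_fin h5 hΓ S c z' z'')]
  congr 1
  funext p
  unfold CLB_f
  split_ifs
  · rw [← add_smul]
    congr 1
    ring
  · simp

theorem CLB_D_self (S : LeafSystem Γ) {t : Finset (Bd × Bd)} (c : t → ℝ) (z : ℍ) :
    CLB_D S c z z = 0 := by
  unfold CLB_D
  rw [← finsum_zero (α := Bd × Bd)]
  congr 1
  funext p
  unfold CLB_f
  split_ifs <;> simp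

theorem CLB_D_add (h5 : GM5_stmt) (hΓ : IsClosedSurfaceGroup Γ) (S : LeafSystem Γ)
    {t : Finset (Bd × Bd)} (c c' : t → ℝ) (z z' : ℍ) :
    CLB_D S (c + c') z z' = CLB_D S c z z' + CLB_D S c' z z' := by
  unfold CLB_D
  rw [← finsum_add_distrib (CLB_fin h5 hΓ S c z z') (CLB_fin h5 hΓ S c' z z')]
  congr 1
  funext p
  unfold CLB_f
  split_ifs
  · rw [← add_smul, CLB_w_add]
    congr 1
    ring
  · simp

theorem CLB_D_smul (S : LeafSystem Γ)
    {t : Finset (Bd × Bd)} (k : ℝ) (c : t → ℝ) (z z' : ℍ) :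
    CLB_D S (k • c) z z' = k • CLB_D S c z z' := by
  unfold CLB_D
  rw [smul_finsum]
  congr 1
  funext p
  unfold CLB_f
  split_ifs
  · rw [CLB_w_smul, smul_smul]
    congr 1
    ring
  · simp

theorem CLB_D_ga (h1 : PT1_stmt) (h5 : GM5_stmt) (h6 : BD6_stmt) (hΓ : IsClosedSurfaceGroup Γ)
    (S : LeafSystem Γ) {t : Finset (Bd × Bd)} (c : t → ℝ) (z z' : ℍ) {g : SL(2, ℝ)} (hg : g ∈ Γ) :
    CLB_D S c (g • z) (g • z') = CLB_cj g (CLB_D S c z z') := by
  unfold CLB_D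
  have e : CLB_cj g (∑ᶠ p, CLB_f S c z z' p) = ∑ᶠ p, CLB_cj g (CLB_f S c z z' p) :=
    AddMonoidHom.map_finsum (CLB_cj g).toAddMonoidHom (CLB_fin h5 hΓ S c z z')
  rw [e]
  have heq : ∀ p : Bd × Bd, CLB_f S c (g • z) (g • z') (ga g p) = CLB_cj g (CLB_f S c z z' p) := by
    intro p
    unfold CLB_f
    have hmem : ga g p ∈ S.L ↔ p ∈ S.L := by
      constructor
      · intro h
        have := S.inv g⁻¹ (Γ.inv_mem hg) _ h
        simpa [ga] using this
      · exact S.inv g hg p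
    by_cases hL : p ∈ S.L
    · rw [if_pos hL, if_pos (hmem.2 hL), map_smul, CLB_Ax_ga h6 (S.closed p hL).1, CLB_w_ga c p hg,
        CLB_sg_ga h1, CLB_sg_ga h1]
    · rw [if_neg hL, if_neg (fun h => hL (hmem.1 h)), map_zero]
  have hequiv := finsum_comp_equiv (f := CLB_f S c (g • z) (g • z'))
    ((MulAction.toPerm g : Equiv.Perm Bd).prodCongr (MulAction.toPerm g : Equiv.Perm Bd))
  rw [← hequiv]
  congr 1
  funext p
  exact heq p

theorem CLB_D_trace (h5 : GM5_stmt) (h6 : BD6_stmt) (hΓ : IsClosedSurfaceGroup Γ)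
    (S : LeafSystem Γ) {t : Finset (Bd × Bd)} (c : t → ℝ) (z z' : ℍ) :
    (CLB_D S c z z').trace = 0 := by
  unfold CLB_D
  have e : (∑ᶠ p, CLB_f S c z z' p).trace = ∑ᶠ p, (CLB_f S c z z' p).trace :=
    AddMonoidHom.map_finsum (Matrix.traceAddMonoidHom (Fin 2) ℝ) (CLB_fin h5 hΓ S c z z')
  rw [e, ← finsum_zero (α := Bd × Bd)]
  congr 1
  funext p
  unfold CLB_f
  split_ifs with hL
  · rw [Matrix.trace_smul, CLB_Ax_trace h6 (S.closed p hL).1, smul_zero]
  · simp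

theorem CLB_D_same (S : LeafSystem Γ) {t : Finset (Bd × Bd)} (c : t → ℝ) {z z' : ℍ}
    (hz : S.OffPt z) (hz' : S.OffPt z') (h : S.SamePl z z') : CLB_D S c z z' = 0 := by
  unfold CLB_D
  rw [← finsum_zero (α := Bd × Bd)]
  congr 1
  funext p
  unfold CLB_f
  split_ifs with hL
  · have h1 := hz p hL
    have h2 := hz' p hL
    have h3 := h p hL
    unfold SepPts at h3
    rw [not_lt] at h3
    have h4 : 0 < side z p.1 p.2 * side z' p.1 p.2 := lt_of_le_of_ne h3 (Ne.symm (mul_ne_zero h1 h2))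
    have : CLB_sg p z' = CLB_sg p z := by
      unfold CLB_sg
      rcases pos_and_pos_or_neg_and_neg_of_mul_pos h4 with ⟨h1, h2⟩ | ⟨h1, h2⟩
      · rw [Real.sign_of_pos h1, Real.sign_of_pos h2]
      · rw [Real.sign_of_neg h1, Real.sign_of_neg h2]
    rw [this, sub_self, mul_zero, zero_smul]
  · rfl

theorem CLB_D_across (h1 : PT1_stmt) (h6 : BD6_stmt) (S : LeafSystem Γ) {t : Finset (Bd × Bd)}
    (c : t → ℝ) {z z' : ℍ} (hz : S.OffPt z) (hz' : S.OffPt z') {p : Bd × Bd}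
    (h : S.Across p z z') : CLB_D S c z z' = (4 * CLB_w Γ c p) • CLB_Ax p := by
  classical
  obtain ⟨hL, hf, hb, hq⟩ := h
  have hpne := (S.closed p hL).1
  have hne : p ≠ sw p := fun h' => hpne (congrArg Prod.fst h')
  have hz1 : CLB_sg p z = -1 := Real.sign_of_neg hf
  have hz2 : CLB_sg p z' = 1 := Real.sign_of_pos hb
  unfold CLB_D
  have hsup : Function.support (CLB_f S c z z') ⊆ (({p, sw p} : Finset (Bd × Bd)) : Set (Bd × Bd)) := by
    intro q hqs
    rw [Function.mem_support] at hqs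
    unfold CLB_f at hqs
    split_ifs at hqs with hqL
    · rw [Finset.coe_insert, Finset.coe_singleton]
      apply hq q hqL
      unfold SepPts
      by_contra hlt
      rw [not_lt] at hlt
      have h4 : 0 < side z q.1 q.2 * side z' q.1 q.2 :=
        lt_of_le_of_ne hlt (Ne.symm (mul_ne_zero (hz q hqL) (hz' q hqL)))
      apply hqs
      have : CLB_sg q z' = CLB_sg q z := by
        unfold CLB_sg
        rcases pos_and_pos_or_neg_and_neg_of_mul_pos h4 with ⟨h1, h2⟩ | ⟨h1, h2⟩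
        · rw [Real.sign_of_pos h1, Real.sign_of_pos h2]
        · rw [Real.sign_of_neg h1, Real.sign_of_neg h2]
      rw [this, sub_self, mul_zero, zero_smul]
    · exact absurd rfl hqs
  rw [finsum_eq_sum_of_support_subset _ hsup, Finset.sum_pair hne]
  unfold CLB_f
  rw [if_pos hL, if_pos (S.swap p hL), CLB_w_sw, CLB_sg_sw h1, CLB_sg_sw h1, CLB_Ax_sw h6 hpne,
    hz1, hz2]
  module

theorem CLB (h4 : BD4_stmt) (h6 : BD6_stmt) (h8 : BD8_stmt) (hPT1 : PT1_stmt) (hGM1 : GM1_stmt)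
    (hGM5 : GM5_stmt) (hPN3 : PN3_stmt) (hPN4 : PN4_stmt) (hPN5 : PN5_stmt) (hCLA : CLA_stmt)
    (hCLG : CLG_stmt) : CLB_stmt := by
  classical
  intro Γ hΓ
  obtain ⟨s, hs, hsΓ⟩ := hCLA Γ hΓ
  refine ⟨4 * s.card, ?_⟩
  intro S t ht htt
  rcases t.eq_empty_or_nonempty with rfl | ⟨p₀, hp₀⟩
  · simp
  have hLne : S.L.Nonempty := ⟨p₀, ht p₀ hp₀⟩
  obtain ⟨z₀, hz₀⟩ := (hPN3 Γ hΓ S p₀ (ht p₀ hp₀)).1
  -- the linear map
  let Φ : (t → ℝ) →ₗ[ℝ] (s → CLB_M) :=
    { toFun := fun c g => CLB_D S c z₀ (g.1 • z₀)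
      map_add' := fun c c' => by
        funext g
        exact CLB_D_add hGM5 hΓ S c c' _ _
      map_smul' := fun k c => by
        funext g
        exact CLB_D_smul S k c _ _ }
  have hinj : Function.Injective Φ := by
    rw [injective_iff_map_eq_zero]
    intro c hc
    -- vanishing on the group
    have hvan : ∀ g ∈ Γ, CLB_D S c z₀ (g • z₀) = 0 := by
      have hcl : ∀ g (hg : g ∈ Subgroup.closure (s : Set SL(2, ℝ))), CLB_D S c z₀ (g • z₀) = 0 := by
        intro g hg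
        induction hg using Subgroup.closure_induction with
        | mem x hx => exact congrFun hc ⟨x, hx⟩
        | one => rw [one_smul, CLB_D_self]
        | mul x y hx hy hx' hy' =>
          rw [CLB_D_trans hGM5 hΓ S c z₀ (x • z₀), hx', mul_smul,
            CLB_D_ga hPT1 hGM5 h6 hΓ S c _ _ (hsΓ ▸ hx), hy', map_zero, add_zero]
        | inv x hx hx' =>
          have h1 := CLB_D_trans hGM5 hΓ S c z₀ (x⁻¹ • z₀) (x⁻¹ • (x • z₀))
          rw [inv_smul_smul, CLB_D_self] at h1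
          have h2 := CLB_D_ga hPT1 hGM5 h6 hΓ S c z₀ (x • z₀) (Γ.inv_mem (hsΓ ▸ hx : x ∈ Γ))
          rw [inv_smul_smul, hx', map_zero] at h2
          rw [h2, add_zero] at h1
          exact h1.symm
      intro g hg
      exact hcl g (hsΓ ▸ hg)
    -- vanishing everywhere
    have hall : ∀ z, S.OffPt z → CLB_D S c z₀ z = 0 := by
      intro z hz
      obtain ⟨p, hp, hpz⟩ := (hCLG Γ hΓ S).2 hLne z hz
      obtain ⟨q, hpq⟩ := (hCLG Γ hΓ S).1 p hp
      have hqz : S.Near q z := (hPN4 Γ hΓ S p hp q hpq.2.1 z hpz).2 (Or.inr hpq)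
      have hcomm : ∀ r, r ∈ S.L → S.Near r z →
          CLB_cj (gen Γ r) (CLB_D S c z₀ z) = CLB_D S c z₀ z := by
        intro r hr hrz
        have hgen := hGM1 Γ hΓ r (S.closed r hr)
        have hgΓ : gen Γ r ∈ Γ := hgen.1
        have hnear : S.Near r (gen Γ r • z) := by
          have h1 := (hPN5 Γ S).2.2.2.2.2.1 (gen Γ r) hgΓ r z hrz
          rwa [hgen.2.1.2.1, hgen.2.1.2.2.1] at h1
        have hsame : S.SamePl z (gen Γ r • z) := (hPN3 Γ hΓ S r hr).2.2.1 z _ hrz hnear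
        have h0 := CLB_D_same S c hz hnear.1 hsame
        have h1 := CLB_D_trans hGM5 hΓ S c z₀ z (gen Γ r • z)
        have h2 := CLB_D_trans hGM5 hΓ S c z₀ (gen Γ r • z₀) (gen Γ r • z)
        rw [hvan _ hgΓ, CLB_D_ga hPT1 hGM5 h6 hΓ S c _ _ hgΓ, zero_add] at h2
        rw [h0, add_zero, h2] at h1
        exact h1
      exact CLB_zero h4 h6 h8 (hGM1 Γ hΓ p (S.closed p hp)).2.1
        (hGM1 Γ hΓ q (S.closed q hpq.2.1)).2.1 hpq.2.2.1 (hcomm p hp hpz) (hcomm q hpq.2.1 hqz)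
        (CLB_D_trace hGM5 h6 hΓ S c _ _)
    -- the weights vanish
    funext q
    have hqL := ht q.1 q.2
    obtain ⟨z₁, hz₁⟩ := (hPN3 Γ hΓ S q.1 hqL).1
    obtain ⟨z₂, hz₂⟩ := (hPN3 Γ hΓ S (sw q.1) (S.swap q.1 hqL)).1
    have hac := (hPN3 Γ hΓ S q.1 hqL).2.1 z₁ z₂ hz₁ hz₂
    have h1 := CLB_D_across hPT1 h6 S c hz₁.1 hz₂.1 hac
    have h2 := CLB_D_trans hGM5 hΓ S c z₀ z₁ z₂
    rw [hall z₁ hz₁.1, hall z₂ hz₂.1, zero_add] at h2
    rw [← h2] at h1
    rcases smul_eq_zero.1 h1.symm with h3 | h3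
    · rw [CLB_w_self c htt q] at h3
      have : c q = 0 := by linarith
      simpa using this
    · exact absurd h3 (CLB_Ax_ne h6 (S.closed q.1 hqL).1)
  have hfin := LinearMap.finrank_le_finrank_of_injective hinj
  rw [Module.finrank_fintype_fun_eq_card, Module.finrank_pi_fintype, Fintype.card_coe] at hfin
  simp only [CLB_M, Module.finrank_matrix, Fintype.card_fin, Module.finrank_self, mul_one,
    Finset.sum_const, Finset.card_univ, Fintype.card_coe, smul_eq_mul] at hfin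
  linarith

end

end AdSBend
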